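import Pool.Agent.W619.Y.Stm9
import Pool.Agent.W460.PG.ONE
import Pool.Agent.W930.PG.PSEFY

/-! One curve, with boundary (part ONEB of project PG). -/

set_option autoImplicit false
set_option linter.overlappingInstances false
set_option linter.unusedSectionVars false

universe u v

open FF IntermediateField Pool.Agent.W619.PQ Pool.Agent.W619.PL Pool.Agent.W619.TW
  Pool.Agent.W603.LV Pool.Agent.W619.Y Pool.Agent.W460.PG.ONE

namespace Pool.Agent.W740.PG.ONEB

/-- The common construction. -/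
theorem base (h1 : S_FIBJB.{u, v}) (h2 : S_DESCJB.{u, v}) (k : Type v) (L : Type u) [Field k]
    [CharZero k] [IsAlgClosed k] [Field L] [Algebra k L] (M F : IntermediateField k L) [IsFF k F]
    (d : ℕ) (BY : Place k M → Prop) (BF : Place k F → Prop)
    (hM : Algebra.trdeg k M = d) (hL : Algebra.trdeg k L = (d + 1 : ℕ))
    (hsup : M ⊔ F = ⊤) (hfin : {p | BF p}.Finite) (S : Finset L) :
    ∃ (A0 : ℕ) (S' : Finset M) (y : Fin d → M) (x : Fin (d + 1) → L)
      (E : Fin (d + 1) → Derivation k L L) (b0 : L),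
      IsTranscendenceBasis k y ∧ IsTranscendenceBasis k x ∧
      (∀ i j, E j (x i) = if i = j then 1 else 0) ∧ b0 ≠ 0 ∧
      ∀ m j : ℕ, ∃ (r : ℕ) (β : Fin r → F), LinearIndependent k β ∧
        (r : ℤ) ≤ max 0 (m * (canDeg k F + {p | BF p}.ncard) + j * A0 + 1) ∧
        ∀ ω : (Fin (d + 1) → Derivation k L L) → L,
          IsSec k L (d + 1) (BdTwo M F BY BF) S m j ω →
          ∃ μ : Fin r → M, b0 ^ j * ω E = ∑ i, (β i : L) * (μ i : L) ∧
            ∀ i, IsSec k M d BY S' m j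
              (fun D => μ i * (Matrix.of fun a b => D a (y b)).det ^ m) := by
  classical
  obtain ⟨y, hy⟩ := exists_basis M d hM
  obtain ⟨t, ht⟩ := IsFF.exists_transcendental (k := k) (K := F)
  have hx := basis_cons M F d hL hsup y hy t ht
  choose E hE using fun j => exists_dual (Fin.cons (t : L) (fun i => (y i : L)) : Fin (d + 1) → L)
    hx j
  have hE0t : E 0 (t : L) = 1 := by
    have h := hE 0 0
    rw [Fin.cons_zero, if_pos rfl] at h
    exact h
  have hE0M : ∀ μ : M, E 0 (μ : L) = 0 := by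
    intro μ
    refine der_zero (K := M) (L := L) ((E 0).compAlgebraMap M) y hy (fun i => ?_) μ
    change E 0 (y i : L) = 0
    have h := hE 0 i.succ
    rw [Fin.cons_succ, if_neg (Fin.succ_ne_zero i)] at h
    exact h
  have hEy : ∀ l j : Fin d, E l.succ (y j : L) = if l = j then 1 else 0 := by
    intro l j
    have h := hE l.succ j.succ
    rw [Fin.cons_succ] at h
    rw [h]
    by_cases hlj : l = j
    · rw [if_pos hlj, if_pos (by rw [hlj])]
    · rw [if_neg hlj, if_neg (fun h => hlj (Fin.succ_injective _ h).symm)]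
  have hEF : ∀ l : Fin d, ∀ β : F, E l.succ (β : L) = 0 := by
    intro l β
    obtain ⟨r, -, hr2⟩ := ratio' (K := L) ht β
    have h3 := hr2 (E l.succ)
    change E l.succ (β : L) = (r : L) * E l.succ (t : L) at h3
    have h4 := hE l.succ 0
    rw [Fin.cons_zero, if_neg (Fin.succ_ne_zero l).symm] at h4
    rw [h3, h4, mul_zero]
  obtain ⟨b0, A0, hb0, hW⟩ :=
    h1 k L M F d BY BF hM hL hsup hfin y hy t ht E hE0M hE0t hEF hEy S
  obtain ⟨S', hS'⟩ := h2 k L M F d BY BF hM hL hsup y hy t ht E hE0M hE0t hEF hEy S b0 hb0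
  refine ⟨A0, S', y, _, E, b0, hy, hx, fun i j => hE j i, hb0, fun m j => ?_⟩
  obtain ⟨W, hWfin, hWr, hWmem⟩ := hW m j
  let b := Module.finBasis k W
  have hspan : Submodule.span M ((fun β : F => (β : L)) '' (W : Set F)) ≤
      Submodule.span M (Set.range fun i => ((b i : F) : L)) := by
    rw [Submodule.span_le]
    rintro _ ⟨β, hβ, rfl⟩
    have h3 := b.sum_repr ⟨β, hβ⟩
    have h4 : (β : L) = ∑ i, (algebraMap k M (b.repr ⟨β, hβ⟩ i)) • ((b i : F) : L) := by
      have h5 := congrArg (fun z : W => (((z : F)) : L)) h3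
      change ((((∑ i, b.repr ⟨β, hβ⟩ i • b i : W)) : F) : L) = (β : L) at h5
      rw [← h5, AddSubmonoidClass.coe_finsetSum, AddSubmonoidClass.coe_finsetSum]
      refine Finset.sum_congr rfl fun i _ => ?_
      rw [algebraMap_smul]
      rfl
    change (β : L) ∈ _
    rw [h4]
    exact Submodule.sum_mem _ fun i _ => Submodule.smul_mem _ _ (Submodule.subset_span ⟨i, rfl⟩)
  have hbli : LinearIndependent k (fun i => (b i : F)) :=
    b.linearIndependent.map' W.subtype (Submodule.ker_subtype W)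
  refine ⟨Module.finrank k W, fun i => (b i : F), hbli, hWr, fun ω hsec => ?_⟩
  obtain ⟨c, hc⟩ := (Submodule.mem_span_range_iff_exists_fun M).1 (hspan (hWmem ω hsec))
  have hμ : b0 ^ j * ω E = ∑ i, ((b i : F) : L) * (c i : L) := by
    rw [← hc]
    refine Finset.sum_congr rfl fun i _ => ?_
    rw [mul_comm]
    rfl
  exact ⟨c, hμ, fun i => hS' m j ω hsec _ (fun i => (b i : F)) c hbli hμ i⟩

/-- Nonzero sections. -/
theorem nonzero (h1 : S_FIBJB.{u, v}) (h2 : S_DESCJB.{u, v}) (k : Type v) (L : Type u) [Field k]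
    [CharZero k] [IsAlgClosed k] [Field L] [Algebra k L] (M F : IntermediateField k L) [IsFF k F]
    (d : ℕ) (BY : Place k M → Prop) (BF : Place k F → Prop)
    (hM : Algebra.trdeg k M = d) (hL : Algebra.trdeg k L = (d + 1 : ℕ))
    (hsup : M ⊔ F = ⊤) (hfin : {p | BF p}.Finite) (S : Finset L) :
    ∃ (A0 : ℕ) (S' : Finset M), ∀ (m j : ℕ) (ω : (Fin (d + 1) → Derivation k L L) → L),
      IsSec k L (d + 1) (BdTwo M F BY BF) S m j ω → (∃ D, ω D ≠ 0) →
      (0 ≤ (m : ℤ) * (canDeg k F + {p | BF p}.ncard) + j * A0) ∧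
      ∃ ω' : (Fin d → Derivation k M M) → M,
        IsSec k M d BY S' m j ω' ∧ ∃ D, ω' D ≠ 0 := by
  classical
  obtain ⟨A0, S', y, x, E, b0, hy, hx, hE, hb0, hbase⟩ :=
    base h1 h2 k L M F d BY BF hM hL hsup hfin S
  refine ⟨A0, S', fun m j ω hsec hne => ?_⟩
  obtain ⟨r, β, hβ, hr, hrep⟩ := hbase m j
  obtain ⟨μ, hμ, hμsec⟩ := hrep ω hsec
  have hωE : ω E ≠ 0 := by
    intro h0
    obtain ⟨D, hD⟩ := hne
    apply hD
    rw [eval x hx E hE hsec.1 D, h0, mul_zero]
  have hex : ∃ i, μ i ≠ 0 := by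
    by_contra hcon
    push Not at hcon
    have h3 : b0 ^ j * ω E = 0 := by
      rw [hμ]
      refine Finset.sum_eq_zero fun i _ => ?_
      rw [hcon i]
      exact mul_zero _
    exact (mul_ne_zero (pow_ne_zero j hb0) hωE) h3
  obtain ⟨i, hi⟩ := hex
  refine ⟨?_, _, hμsec i, ?_⟩
  · have h3 : 0 < r := i.pos
    have h4 : (1 : ℤ) ≤ r := by exact_mod_cast h3
    by_contra hcon
    push Not at hcon
    have h5 : max 0 ((m : ℤ) * (canDeg k F + {p | BF p}.ncard) + j * A0 + 1) ≤ 0 :=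
      max_le le_rfl (by linarith)
    linarith
  · choose E' hE' using fun j => exists_dual y hy j
    refine ⟨E', ?_⟩
    have hdet := det_dual y E' (fun i j => hE' j i)
    change μ i * (Matrix.of fun a b => E' a (y b)).det ^ m ≠ 0
    rw [hdet, one_pow, mul_one]
    exact hi

/-- The main estimate. -/
theorem key (h1 : S_FIBJB.{u, v}) (h2 : S_DESCJB.{u, v}) (k : Type v) (L : Type u) [Field k]
    [CharZero k] [IsAlgClosed k] [Field L] [Algebra k L] (M F : IntermediateField k L) [IsFF k F]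
    (d a : ℕ) (BY : Place k M → Prop) (BF : Place k F → Prop)
    (hM : Algebra.trdeg k M = d) (hL : Algebra.trdeg k L = (d + 1 : ℕ))
    (hsup : M ⊔ F = ⊤) (hfin : {p | BF p}.Finite) (hnum : NumLe k M d BY a) (S : Finset L) :
    ∃ A0 C : ℕ, ∀ m N : ℕ, 1 ≤ m →
      HasIndep k L (d + 1) N (IsSec k L (d + 1) (BdTwo M F BY BF) S m 1) →
      N ≤ (max 0 ((m : ℤ) * (canDeg k F + {p | BF p}.ncard) + A0)).toNat * (C * m ^ a) := by
  classical
  obtain ⟨A0, S', y, x, E, b0, hy, hx, hE, hb0, hbase⟩ :=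
    base h1 h2 k L M F d BY BF hM hL hsup hfin S
  obtain ⟨C, hC⟩ := hnum S'
  refine ⟨A0 + 1, C, fun m N hm hN => ?_⟩
  obtain ⟨ω, hω, hsec⟩ := hN
  obtain ⟨r, β, hβ, hr, hrep⟩ := hbase m 1
  obtain ⟨hV, hVr⟩ := finrank_VV BY S' m 1 y hy (C * m ^ a) (fun N hN => hC m N hm hN)
  choose μ hμ hμsec using fun l => hrep (ω l) (hsec l)
  have hmem : ∀ l i, μ l i ∈ VV k BY S' m 1 y := fun l i => hμsec l i
  let T : Fin N → (Fin r → VV k BY S' m 1 y) := fun l i => ⟨μ l i, hmem l i⟩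
  have hT : LinearIndependent k T := by
    rw [Fintype.linearIndependent_iff] at hω ⊢
    intro g hg
    refine hω g ?_
    have h3 : ∀ i, ∑ l, g l • μ l i = 0 := by
      intro i
      have h4 := congrFun hg i
      rw [Finset.sum_apply] at h4
      have h5 := congrArg (fun z : VV k BY S' m 1 y => (z : M)) h4
      change ((∑ l, (g l • T l) i : VV k BY S' m 1 y) : M) = 0 at h5
      rw [AddSubmonoidClass.coe_finsetSum] at h5
      exact h5
    have h4 : b0 ^ 1 * ∑ l, g l • ω l E = 0 := by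
      rw [Finset.mul_sum]
      have h5 : ∀ l, b0 ^ 1 * (g l • ω l E) = ∑ i, (β i : L) * ((g l • μ l i : M) : L) := by
        intro l
        rw [mul_smul_comm, hμ l, Finset.smul_sum]
        refine Finset.sum_congr rfl fun i _ => ?_
        rw [← mul_smul_comm]
        rfl
      rw [Finset.sum_congr rfl fun l _ => h5 l, Finset.sum_comm]
      refine Finset.sum_eq_zero fun i _ => ?_
      rw [← Finset.mul_sum, ← AddSubmonoidClass.coe_finsetSum, h3 i]
      exact mul_zero _
    have h6 : ∑ l, g l • ω l E = 0 := (mul_eq_zero.1 h4).resolve_left (pow_ne_zero 1 hb0)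
    funext D
    rw [Finset.sum_apply]
    simp only [Pi.smul_apply, Pi.zero_apply]
    calc ∑ l, g l • ω l D = (Matrix.of fun i j => D i (x j)).det ^ m * ∑ l, g l • ω l E := by
          rw [Finset.mul_sum]
          refine Finset.sum_congr rfl fun l _ => ?_
          rw [eval x hx E hE (hsec l).1 D, mul_smul_comm]
      _ = 0 := by rw [h6, mul_zero]
  have h5 := hT.fintype_card_le_finrank
  rw [Fintype.card_fin, Module.finrank_pi_fintype] at h5
  rw [Finset.sum_const, Finset.card_univ, Fintype.card_fin, smul_eq_mul] at h5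
  refine h5.trans (Nat.mul_le_mul ?_ hVr)
  have h6 := Int.toNat_le_toNat hr
  rw [Int.toNat_natCast] at h6
  refine h6.trans (Int.toNat_le_toNat (max_le_max le_rfl ?_))
  push_cast
  linarith

theorem main (h1 : S_FIBJB.{u, v}) (h2 : S_DESCJB.{u, v}) : S_ONEB.{u, v} := by
  intro k L _ _ _ _ _ M F _ d BY BF hM hL hsup hfin
  refine ⟨?_, ?_, ?_, ?_⟩
  · rintro ⟨S, hS⟩
    obtain ⟨A0, S', hS'⟩ := nonzero h1 h2 k L M F d BY BF hM hL hsup hfin S
    refine ⟨S', fun N => ?_⟩
    obtain ⟨j, hj, ω, hω, hne⟩ := hS N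
    obtain ⟨-, ω', hω', hne'⟩ := hS' (j * N) j ω hω hne
    exact ⟨j, hj, ω', hω', hne'⟩
  · intro hnum S
    obtain ⟨A0, S', hS'⟩ := nonzero h1 h2 k L M F d BY BF hM hL hsup hfin S
    obtain ⟨m0, hm0⟩ := hnum S'
    refine ⟨m0, fun m hm hind => hm0 m hm ?_⟩
    obtain ⟨ω, hω, hne⟩ := Pool.Agent.W930.PG.hasIndep_one.1 hind
    exact Pool.Agent.W930.PG.hasIndep_one.2 (hS' m 1 ω hω hne).2
  · intro hdeg
    refine ⟨?_, fun S => ?_⟩
    · rintro ⟨S, hS⟩
      obtain ⟨A0, S', hS'⟩ := nonzero h1 h2 k L M F d BY BF hM hL hsup hfin S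
      obtain ⟨j, hj, ω, hω, hne⟩ := hS (A0 + 1)
      obtain ⟨h3, -⟩ := hS' (j * (A0 + 1)) j ω hω hne
      have hj' : (1 : ℤ) ≤ j := by exact_mod_cast hj
      push_cast at h3
      have hA : (0 : ℤ) ≤ A0 := Int.natCast_nonneg A0
      nlinarith [mul_nonneg (by linarith : (0 : ℤ) ≤ j) hA, mul_nonneg
        (mul_nonneg (by linarith : (0 : ℤ) ≤ j) (by linarith : (0 : ℤ) ≤ (A0 : ℤ) + 1))
        (by linarith : (0 : ℤ) ≤ -1 - (canDeg k F + {p | BF p}.ncard))]
    · obtain ⟨A0, S', hS'⟩ := nonzero h1 h2 k L M F d BY BF hM hL hsup hfin S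
      refine ⟨A0 + 1, fun m hm hind => ?_⟩
      obtain ⟨ω, hω, hne⟩ := Pool.Agent.W930.PG.hasIndep_one.1 hind
      obtain ⟨h3, -⟩ := hS' m 1 ω hω hne
      have hm' : (A0 : ℤ) + 1 ≤ m := by exact_mod_cast hm
      push_cast at h3
      have hA : (0 : ℤ) ≤ A0 := Int.natCast_nonneg A0
      nlinarith [mul_nonneg (by linarith : (0 : ℤ) ≤ m)
        (by linarith : (0 : ℤ) ≤ -1 - (canDeg k F + {p | BF p}.ncard))]
  · intro a hnum hdeg
    refine ⟨fun hdeg0 S => ?_, fun S => ?_⟩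
    · obtain ⟨A0, C, h⟩ := key h1 h2 k L M F d a BY BF hM hL hsup hfin hnum S
      refine ⟨A0 * C, fun m N hm hN => ?_⟩
      refine (h m N hm hN).trans (le_of_eq ?_)
      rw [hdeg0, mul_zero, zero_add, max_eq_right (Int.natCast_nonneg A0), Int.toNat_natCast,
        mul_assoc]
    · obtain ⟨A0, C, h⟩ := key h1 h2 k L M F d a BY BF hM hL hsup hfin hnum S
      obtain ⟨c, hc⟩ := Int.eq_ofNat_of_zero_le hdeg
      refine ⟨(c + A0) * C, fun m N hm hN => ?_⟩
      refine (h m N hm hN).trans ?_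
      have h3 : (max 0 ((m : ℤ) * (canDeg k F + {p | BF p}.ncard) + A0)).toNat = m * c + A0 := by
        rw [hc, max_eq_right (by positivity)]
        have h4 : (m : ℤ) * (c : ℤ) + (A0 : ℤ) = ((m * c + A0 : ℕ) : ℤ) := by push_cast; ring
        rw [h4, Int.toNat_natCast]
      rw [h3]
      have h4 : m * c + A0 ≤ m * (c + A0) := by
        rw [mul_add]
        exact Nat.add_le_add_left (Nat.le_mul_of_pos_left _ hm) _
      calc (m * c + A0) * (C * m ^ a) ≤ (m * (c + A0)) * (C * m ^ a) :=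
            Nat.mul_le_mul_right _ h4
        _ = (c + A0) * C * m ^ (a + 1) := by ring

end Pool.Agent.W740.PG.ONEB
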